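import Pool.Agent.TH703.HU.Stm
import Pool.Agent.TH73.MI.Basic
import Pool.Agent.TH703.Cone.Trans

set_option autoImplicit false

/-! # Project HU: B4, a set with zero `y`-divergence is cylindrical -/

namespace Pool.Agent.TH89.HU

open MeasureTheory Set Filter Topology Metric
open Pool.Agent.TH304.MI Pool.Agent.TH703.HU
open scoped ENNReal ContDiff Manifold

namespace B4L

variable {b : ℕ}

/-- vanishing of the `y`-divergence -/
def YZ (Ω A : Set (PP b)) : Prop :=
  ∀ φ : PP b → PP b, ContDiff ℝ 1 φ → HasCompactSupport φ → tsupport φ ⊆ Ω →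
    (∀ p, xc (φ p) = 0) → ∫ x in A, dv φ x = 0

lemma xc_smul0 {v : PP b} (hv : xc v = 0) (t : ℝ) : xc (t • v) = 0 := by
  rw [Pool.Agent.TH73.MI.xc_smul, hv, mul_zero]

lemma aux {Ω A : Set (PP b)} (h : YZ Ω A) {v : PP b} (hv : xc v = 0) {ψ : PP b → ℝ}
    (hψ : ContDiff ℝ 1 ψ) (hc : HasCompactSupport ψ)
    (hsub : ∀ x ∈ tsupport ψ, ∀ t ∈ Icc (0 : ℝ) 1, x + t • v ∈ Ω) :
    (∫ x in A, ψ x) - ∫ x in A, ψ (x - v) = 0 := by
  obtain ⟨C, hC⟩ : ∃ C, ∀ x, ‖fderiv ℝ ψ x‖ ≤ C :=
    (hc.fderiv ℝ).exists_bound_of_continuous (hψ.continuous_fderiv (by norm_num))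
  have hC0 : 0 ≤ C := (norm_nonneg _).trans (hC 0)
  obtain ⟨R, hR⟩ : ∃ R : ℝ, tsupport ψ ⊆ closedBall 0 R := hc.isBounded.subset_closedBall 0
  have hfd0 : ∀ x, R < ‖x‖ → fderiv ℝ ψ x = 0 := by
    intro x hx
    by_contra hne
    have h2 : x ∈ tsupport ψ := support_fderiv_subset ℝ (f := ψ) hne
    have h3 := hR h2
    rw [mem_closedBall_zero_iff] at h3
    linarith
  -- derivative of the function of `t`
  have hder : ∀ t : ℝ, HasDerivAt (fun t : ℝ => ∫ x in A, ψ (x - t • v))
      (∫ x in A, -(fderiv ℝ ψ (x - t • v) v)) t := by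
    intro t
    refine (hasDerivAt_integral_of_dominated_loc_of_deriv_le (μ := volume.restrict A)
      (F := fun t x => ψ (x - t • v)) (F' := fun t x => -(fderiv ℝ ψ (x - t • v) v))
      (bound := fun x => (closedBall (0 : PP b) (R + (|t| + 1) * ‖v‖)).indicator
        (fun _ => C * ‖v‖) x)
      (s := ball t 1) (ball_mem_nhds t one_pos) ?_ ?_ ?_ ?_ ?_ ?_).2
    · exact Eventually.of_forall fun s =>
        (hψ.continuous.comp (by fun_prop)).aestronglyMeasurable
    · have h1 : Continuous (fun x : PP b => ψ (x - t • v)) := hψ.continuous.comp (by fun_prop)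
      have h2 : HasCompactSupport (fun x : PP b => ψ (x - t • v)) := by
        have := hc.comp_homeomorph (Homeomorph.subRight (t • v))
        exact this
      exact (h1.integrable_of_hasCompactSupport h2).integrableOn
    · have h1 : Continuous (fun x : PP b => fderiv ℝ ψ (x - t • v) v) :=
        ((hψ.continuous_fderiv (by norm_num)).comp (by fun_prop)).clm_apply continuous_const
      exact h1.neg.aestronglyMeasurable
    · refine Eventually.of_forall fun x s hs => ?_
      rw [norm_neg]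
      by_cases hx : x ∈ closedBall (0 : PP b) (R + (|t| + 1) * ‖v‖)
      · rw [indicator_of_mem hx]
        calc ‖fderiv ℝ ψ (x - s • v) v‖ ≤ ‖fderiv ℝ ψ (x - s • v)‖ * ‖v‖ :=
              ContinuousLinearMap.le_opNorm _ _
          _ ≤ C * ‖v‖ := by gcongr; exact hC _
      · rw [indicator_of_notMem hx]
        rw [mem_closedBall, dist_zero_right, not_le] at hx
        have h3 : ‖s • v‖ ≤ (|t| + 1) * ‖v‖ := by
          rw [norm_smul, Real.norm_eq_abs]
          have h4 : |s| ≤ |t| + 1 := by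
            rw [mem_ball, Real.dist_eq] at hs
            have := abs_sub_abs_le_abs_sub s t
            linarith
          gcongr
        have h5 : R < ‖x - s • v‖ := by
          have := norm_sub_norm_le x (s • v)
          linarith
        rw [hfd0 _ h5]; simp
    · rw [integrable_indicator_iff measurableSet_closedBall]
      refine integrableOn_const ?_ ?_
      · exact ((Measure.restrict_apply_le _ _).trans_lt measure_closedBall_lt_top).ne
      · exact enorm_ne_top
    · refine Eventually.of_forall fun x s _ => ?_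
      have h1 : HasDerivAt (fun s : ℝ => x - s • v) (-v) s := by
        simpa using ((hasDerivAt_id s).smul_const v).const_sub x
      have h2 := ((hψ.differentiable (by norm_num)) (x - s • v)).hasFDerivAt.comp_hasDerivAt s h1
      rw [map_neg] at h2
      exact h2
  -- mean value theorem
  obtain ⟨t, ht, hslope⟩ := exists_hasDerivAt_eq_slope
    (fun t : ℝ => ∫ x in A, ψ (x - t • v)) (fun t => ∫ x in A, -(fderiv ℝ ψ (x - t • v) v))
    (zero_lt_one (α := ℝ))
    (fun t _ => (hder t).continuousAt.continuousWithinAt) (fun t _ => hder t)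
  simp only [zero_smul, sub_zero, one_smul, div_one] at hslope
  have hmain : ∫ x in A, fderiv ℝ ψ (x - t • v) v = 0 := by
    let f : PP b → ℝ := fun x => ψ (x - t • v)
    have hf : ContDiff ℝ 1 f := hψ.comp (contDiff_id.sub contDiff_const)
    have hcf : HasCompactSupport (fun x : PP b => ψ (x - t • v)) :=
      hc.comp_homeomorph (Homeomorph.subRight (t • v))
    have hT1 : ContDiff ℝ 1 (fun x => f x • v) := hf.smul contDiff_const
    have hT2 : HasCompactSupport (fun x => f x • v) := hcf.smul_right (f' := fun _ => v)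
    have hT3 : tsupport (fun x => f x • v) ⊆ Ω := by
      have e1 : tsupport (fun x => f x • v) ⊆ (fun x => x - t • v) ⁻¹' tsupport ψ := by
        refine closure_minimal ?_ ((isClosed_tsupport ψ).preimage (by fun_prop))
        intro x hx
        apply subset_tsupport
        rw [Function.mem_support] at hx ⊢
        intro h0
        apply hx
        simp only [f, h0, zero_smul]
      intro x hx
      have h2 := hsub _ (e1 hx) t ⟨ht.1.le, ht.2.le⟩
      simpa using h2
    have hdiv : ∀ x, dv (fun x => f x • v) x = fderiv ℝ ψ (x - t • v) v := by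
      intro x
      have h0 : dv (fun x => f x • v) x = fderiv ℝ f x v :=
        Pool.Agent.TH703.Cone.TransL.dv_const_smul ((hf.differentiable (by norm_num)) x)
      rw [h0]
      have h7 : HasFDerivAt f (fderiv ℝ ψ (x - t • v)) x := by
        have h8 : HasFDerivAt (fun x : PP b => x - t • v) (ContinuousLinearMap.id ℝ (PP b)) x :=
          (hasFDerivAt_id x).sub_const _
        have h9 := ((hψ.differentiable (by norm_num)) (x - t • v)).hasFDerivAt.comp x h8
        rw [ContinuousLinearMap.comp_id] at h9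
        exact h9
      rw [h7.fderiv]
    have h6 := h _ hT1 hT2 hT3 fun p => xc_smul0 hv _
    simp_rw [hdiv] at h6
    exact h6
  rw [integral_neg, hmain] at hslope
  linarith

/-- translation invariance -/
lemma trans {Ω A : Set (PP b)} {v : PP b} (hΩo : IsOpen Ω) (hΩc : Convex ℝ Ω)
    (hΩb : Bornology.IsBounded Ω) (hA : MeasurableSet A) (hAΩ : A ⊆ Ω) (h : YZ Ω A)
    (hv : xc v = 0) : volume {x | x ∈ A ∧ x + v ∈ Ω \ A} = 0 := by
  have hΩfin : volume Ω ≠ ⊤ := hΩb.measure_lt_top.ne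
  set T : Set (PP b) := {x | x ∈ A ∧ x + v ∈ Ω \ A} with hT
  have hTm : MeasurableSet T :=
    hA.inter ((measurable_id.add_const v) (hΩo.measurableSet.diff hA))
  have hTfin : volume T ≠ ⊤ :=
    ne_top_of_le_ne_top hΩfin (measure_mono fun x hx => hAΩ hx.1)
  have hshift : ∀ S : Set (PP b), volume {x : PP b | x - v ∈ S} = volume S := by
    intro S
    have : {x : PP b | x - v ∈ S} = (fun x => x + (-v)) ⁻¹' S := by
      ext x; simp [sub_eq_add_neg]
    rw [this, measure_preimage_add_right]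
  refine le_antisymm (ENNReal.le_of_forall_pos_le_add fun δ hδ _ => ?_) bot_le
  have hδ' : (ENNReal.ofReal (δ / 2)) ≠ 0 := by
    have : (0 : ℝ) < δ / 2 := by positivity
    simpa using this
  obtain ⟨K, hKT, hKc, hK⟩ := hTm.exists_isCompact_sdiff_lt hTfin hδ'
  have hKfin : volume K ≠ ⊤ := hKc.measure_lt_top.ne
  obtain ⟨U₀, hKU₀, hU₀o, -, hU₀⟩ := hKc.measurableSet.exists_isOpen_sdiff_lt hKfin hδ'
  -- the compact set `K + [0, 1] v`
  set K' : Set (PP b) := (fun p : PP b × ℝ => p.1 + p.2 • v) '' (K ×ˢ Icc (0 : ℝ) 1) with hK'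
  have hK'c : IsCompact K' := (hKc.prod isCompact_Icc).image (by fun_prop)
  have hK'Ω : K' ⊆ Ω := by
    rintro _ ⟨⟨x, t⟩, ⟨hx, ht⟩, rfl⟩
    have h1 := hKT hx
    have h2 := hΩc (hAΩ h1.1) h1.2.1 (sub_nonneg.2 ht.2) ht.1 (by ring)
    simp only at h2 ⊢
    convert h2 using 1
    module
  obtain ⟨κ, hκ, hκΩ⟩ := hK'c.exists_cthickening_subset_open hΩo hK'Ω
  set U : Set (PP b) := U₀ ∩ thickening κ K with hU
  have hUo : IsOpen U := hU₀o.inter isOpen_thickening
  have hKU : K ⊆ U := subset_inter hKU₀ (self_subset_thickening hκ K)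
  have hUd : volume (U \ K) < ENNReal.ofReal (δ / 2) :=
    (measure_mono (sdiff_subset_sdiff_left inter_subset_left)).trans_lt hU₀
  obtain ⟨f, hf0, hf1, hf⟩ := exists_contMDiffMap_zero_one_of_isClosed (n := 1)
    𝓘(ℝ, PP b) (s := Uᶜ) (t := K) hUo.isClosed_compl hKc.isClosed
    (Set.disjoint_left.2 fun x hx hxK => hx (hKU hxK))
  have hfd : ContDiff ℝ 1 (f : PP b → ℝ) := f.contMDiff.contDiff
  have hts : tsupport (f : PP b → ℝ) ⊆ cthickening κ K := by
    refine closure_minimal ?_ isClosed_cthickening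
    intro x hx
    by_contra hne
    apply hx
    apply hf0
    intro hxU
    exact hne (thickening_subset_cthickening κ K hxU.2)
  have hfc : HasCompactSupport (f : PP b → ℝ) :=
    hKc.cthickening.of_isClosed_subset (isClosed_tsupport _) hts
  have hmain := aux h hv hfd hfc (by
    intro x hx t ht
    apply hκΩ
    have h1 := hts hx
    rw [hKc.cthickening_eq_biUnion_closedBall hκ.le, mem_iUnion₂] at h1
    obtain ⟨y, hy, hxy⟩ := h1
    have h2 : y + t • v ∈ K' := ⟨(y, t), ⟨hy, ht⟩, rfl⟩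
    refine closedBall_subset_cthickening h2 κ ?_
    rw [mem_closedBall] at hxy ⊢
    simpa using hxy)
  have hfi : Integrable (f : PP b → ℝ) := hfd.continuous.integrable_of_hasCompactSupport hfc
  have hfi2 : Integrable (fun x : PP b => f (x - v)) := hfi.comp_sub_right v
  have hUfin : volume U ≠ ⊤ := by
    have : volume U ≤ volume K + volume (U \ K) := by
      calc volume U = volume (K ∪ (U \ K)) := by rw [union_sdiff_cancel hKU]
        _ ≤ _ := measure_union_le _ _
    exact ne_top_of_le_ne_top (ENNReal.add_ne_top.2 ⟨hKfin, hUd.ne_top⟩) this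
  have hKA : K ⊆ A := fun x hx => (hKT hx).1
  have h1 : volume.real K ≤ ∫ x in A, f x := by
    calc volume.real K = ∫ x in K, (1 : ℝ) := by simp
      _ = ∫ x in K, f x := setIntegral_congr_fun hKc.measurableSet fun x hx => (hf1 hx).symm
      _ ≤ ∫ x in A, f x := setIntegral_mono_set hfi.integrableOn
          (Eventually.of_forall fun x => (hf x).1) (LE.le.eventuallyLE hKA)
  have hSm : MeasurableSet {x : PP b | x - v ∈ U} :=
    (measurable_id.sub_const v) hUo.measurableSet
  have h2 : ∫ x in A, f (x - v) ≤ volume.real (U \ K) := by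
    have hm : MeasurableSet {x | x ∈ A ∧ x - v ∈ U} := hA.inter hSm
    have hle : volume {x | x ∈ A ∧ x - v ∈ U} ≤ volume (U \ K) := by
      rw [← hshift (U \ K)]
      refine measure_mono ?_
      rintro x ⟨hx1, hx2⟩
      refine ⟨hx2, fun hx3 => ?_⟩
      have := (hKT hx3).2.2
      rw [sub_add_cancel] at this
      exact this hx1
    have hfin2 : volume {x | x ∈ A ∧ x - v ∈ U} ≠ ⊤ := ne_top_of_le_ne_top hUd.ne_top hle
    calc ∫ x in A, f (x - v) = ∫ x in A, ({x : PP b | x - v ∈ U}).indicator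
          (fun x => f (x - v)) x := by
          congr 1; ext x
          by_cases hx : x - v ∈ U
          · rw [indicator_of_mem (show x ∈ {x : PP b | x - v ∈ U} from hx)]
          · rw [indicator_of_notMem (show x ∉ {x : PP b | x - v ∈ U} from hx), hf0 hx]; rfl
      _ = ∫ x in A ∩ {x : PP b | x - v ∈ U}, f (x - v) := setIntegral_indicator hSm
      _ ≤ ∫ x in A ∩ {x : PP b | x - v ∈ U}, (1 : ℝ) :=
          setIntegral_mono_on hfi2.integrableOn (integrableOn_const hfin2 (by simp)) hm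
            fun x _ => (hf _).2
      _ = volume.real {x | x ∈ A ∧ x - v ∈ U} := by
          rw [setIntegral_const, smul_eq_mul, mul_one]; rfl
      _ ≤ _ := ENNReal.toReal_mono hUd.ne_top hle
  have h3 : volume.real (U \ K) ≤ δ / 2 := by
    have := ENNReal.toReal_mono ENNReal.ofReal_ne_top hUd.le
    rwa [ENNReal.toReal_ofReal (by positivity)] at this
  have h4 : volume K ≤ ENNReal.ofReal (δ / 2) := by
    rw [← ENNReal.ofReal_toReal hKfin]
    refine ENNReal.ofReal_le_ofReal ?_
    change volume.real K ≤ _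
    linarith
  calc volume T = volume (K ∪ (T \ K)) := by rw [union_sdiff_cancel hKT]
    _ ≤ volume K + volume (T \ K) := measure_union_le _ _
    _ ≤ ENNReal.ofReal (δ / 2) + ENNReal.ofReal (δ / 2) := by gcongr
    _ = 0 + δ := by
        rw [← ENNReal.ofReal_add (by positivity) (by positivity), add_halves,
          ENNReal.ofReal_coe_nnreal, zero_add]

/-- almost all fibres of `F` are null or co-null in `O` -/
lemma fibre {F G : Set (ℂ × (Fin b → ℝ))} (hF : MeasurableSet F) (hG : MeasurableSet G)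
    (h : ∀ w : Fin b → ℝ, volume {q : ℂ × (Fin b → ℝ) | q ∈ F ∧ (q.1, q.2 + w) ∈ G} = 0) :
    ∀ᵐ x : ℂ, volume (Prod.mk x ⁻¹' F) = 0 ∨ volume (Prod.mk x ⁻¹' G) = 0 := by
  -- for all `w`, for a.e. `x`, for a.e. `y`
  have h1 : ∀ w : Fin b → ℝ, ∀ᵐ x : ℂ, ∀ᵐ y : Fin b → ℝ, ¬ ((x, y) ∈ F ∧ (x, y + w) ∈ G) := by
    intro w
    have hm : MeasurableSet {q : ℂ × (Fin b → ℝ) | ¬ (q ∈ F ∧ (q.1, q.2 + w) ∈ G)} := by
      have : Measurable fun q : ℂ × (Fin b → ℝ) => (q.1, q.2 + w) := by fun_prop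
      exact (hF.inter (this hG)).compl
    have h2 : ∀ᵐ q : ℂ × (Fin b → ℝ), ¬ (q ∈ F ∧ (q.1, q.2 + w) ∈ G) := by
      rw [ae_iff]
      simpa using h w
    rw [Measure.volume_eq_prod] at h2
    exact (Measure.ae_prod_iff_ae_ae hm).1 h2
  have h3 : ∀ᵐ w : Fin b → ℝ, ∀ᵐ x : ℂ,
      volume {y : Fin b → ℝ | (x, y) ∈ F ∧ (x, y + w) ∈ G} = 0 := by
    refine Eventually.of_forall fun w => (h1 w).mono fun x hx => ?_
    rw [ae_iff] at hx
    simpa using hx
  have hM : Measurable fun z : (Fin b → ℝ) × ℂ =>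
      volume {y : Fin b → ℝ | (z.2, y) ∈ F ∧ (z.2, y + z.1) ∈ G} := by
    have e : ∀ z : (Fin b → ℝ) × ℂ, {y : Fin b → ℝ | (z.2, y) ∈ F ∧ (z.2, y + z.1) ∈ G}
        = Prod.mk z ⁻¹' {u : ((Fin b → ℝ) × ℂ) × (Fin b → ℝ) |
          (u.1.2, u.2) ∈ F ∧ (u.1.2, u.2 + u.1.1) ∈ G} := fun z => rfl
    simp_rw [e]
    refine measurable_measure_prodMk_left ?_
    have m1 : Measurable fun u : ((Fin b → ℝ) × ℂ) × (Fin b → ℝ) => (u.1.2, u.2) := by fun_prop
    have m2 : Measurable fun u : ((Fin b → ℝ) × ℂ) × (Fin b → ℝ) => (u.1.2, u.2 + u.1.1) := by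
      fun_prop
    exact (m1 hF).inter (m2 hG)
  have h4 : ∀ᵐ x : ℂ, ∀ᵐ w : Fin b → ℝ,
      volume {y : Fin b → ℝ | (x, y) ∈ F ∧ (x, y + w) ∈ G} = 0 :=
    (Measure.ae_ae_comm (p := fun (w : Fin b → ℝ) (x : ℂ) =>
      volume {y : Fin b → ℝ | (x, y) ∈ F ∧ (x, y + w) ∈ G} = 0)
      (hM (measurableSet_singleton 0))).1 h3
  refine h4.mono fun x hx => ?_
  set Fx := Prod.mk x ⁻¹' F with hFx
  set Gx := Prod.mk x ⁻¹' G with hGx
  have hFxm : MeasurableSet Fx := measurable_prodMk_left hF
  have hGxm : MeasurableSet Gx := measurable_prodMk_left hG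
  have h5 : ∀ᵐ w : Fin b → ℝ, ∀ᵐ y : Fin b → ℝ, ¬ (y ∈ Fx ∧ y + w ∈ Gx) := by
    refine hx.mono fun w hw => ?_
    rw [ae_iff]
    refine measure_mono_null ?_ hw
    intro y hy
    exact not_not.1 hy
  have h6 : ∀ᵐ y : Fin b → ℝ, ∀ᵐ w : Fin b → ℝ, ¬ (y ∈ Fx ∧ y + w ∈ Gx) := by
    refine (Measure.ae_ae_comm (p := fun (w y : Fin b → ℝ) => ¬ (y ∈ Fx ∧ y + w ∈ Gx)) ?_).1 h5
    have m1 : Measurable fun u : (Fin b → ℝ) × (Fin b → ℝ) => u.2 := by fun_prop
    have m2 : Measurable fun u : (Fin b → ℝ) × (Fin b → ℝ) => u.2 + u.1 := by fun_prop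
    exact ((m1 hFxm).inter (m2 hGxm)).compl
  by_contra hcon
  rw [not_or] at hcon
  have h7 : ∃ y ∈ Fx, ∀ᵐ w : Fin b → ℝ, ¬ (y ∈ Fx ∧ y + w ∈ Gx) := by
    by_contra hne
    push Not at hne
    apply hcon.1
    refine measure_mono_null ?_ (ae_iff.1 h6)
    intro y hy
    exact fun h8 => (hne y hy) h8
  obtain ⟨y, hy, hyw⟩ := h7
  apply hcon.2
  have h8 : ∀ᵐ w : Fin b → ℝ, ¬ (y + w ∈ Gx) := hyw.mono fun w hw h9 => hw ⟨hy, h9⟩
  rw [ae_iff] at h8
  have h9 : {w : Fin b → ℝ | ¬ ¬ (y + w ∈ Gx)} = (fun w => y + w) ⁻¹' Gx := by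
    ext w; simp
  rw [h9, measure_preimage_add] at h8
  exact h8

end B4L

open B4L in
theorem b4 : S_B4 := by
  intro b Ω hΩo hΩc hΩb F hF hFΩ h
  obtain ⟨e, he, hmp⟩ := Pool.Agent.TH73.MI.t_fub b
  set F' : Set (ℂ × (Fin b → ℝ)) := e.symm ⁻¹' F with hF'
  set G' : Set (ℂ × (Fin b → ℝ)) := e.symm ⁻¹' (Ω \ F) with hG'
  have hF'm : MeasurableSet F' := e.symm.measurable hF
  have hG'm : MeasurableSet G' := e.symm.measurable (hΩo.measurableSet.diff hF)
  have hfib := fibre hF'm hG'm (fun w => by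
    set v : PP b := e.symm (0, w) with hvd
    have hev : e v = (0, w) := by rw [hvd, e.apply_symm_apply]
    have hxv : xc v = 0 := by
      have := he v
      rw [hev] at this
      exact (congrArg Prod.fst this).symm
    have hyv : yc v = w := by
      have := he v
      rw [hev] at this
      exact (congrArg Prod.snd this).symm
    have h1 := trans hΩo hΩc hΩb hF hFΩ h hxv
    have h2 : {q : ℂ × (Fin b → ℝ) | q ∈ F' ∧ (q.1, q.2 + w) ∈ G'}
        = e.symm ⁻¹' {x | x ∈ F ∧ x + v ∈ Ω \ F} := by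
      ext q
      have h3 : e.symm (q.1, q.2 + w) = e.symm q + v := by
        rw [e.symm_apply_eq, he]
        have h4 := he (e.symm q)
        rw [e.apply_symm_apply] at h4
        refine Prod.ext ?_ ?_
        · change q.1 = xc (e.symm q + v)
          rw [Pool.Agent.TH73.MI.xc_add, hxv, add_zero]
          exact congrArg Prod.fst h4
        · change q.2 + w = yc (e.symm q + v)
          funext i
          rw [Pool.Agent.TH73.MI.yc_add, hyv, Pi.add_apply]
          rw [congrFun (congrArg Prod.snd h4) i]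
      change (e.symm q ∈ F ∧ e.symm (q.1, q.2 + w) ∈ Ω \ F) ↔ _
      rw [h3]
      rfl
    rw [h2, (hmp.symm e).measure_preimage_equiv]
    exact h1)
  set A : Set ℂ := {x | volume (Prod.mk x ⁻¹' F') ≠ 0} with hA
  have hAm : MeasurableSet A := by
    have := measurable_measure_prodMk_left (ν := (volume : Measure (Fin b → ℝ))) hF'm
    exact (this (measurableSet_singleton 0)).compl
  refine ⟨A, hAm, ?_⟩
  have hcm : MeasurableSet (cylO Ω A) :=
    hΩo.measurableSet.inter ((Pool.Agent.TH73.MI.continuous_xc.measurable) hAm)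
  have hSm : MeasurableSet (symmDiff F (cylO Ω A)) := hF.symmDiff hcm
  rw [← (hmp.symm e).measure_preimage_equiv, Measure.volume_eq_prod,
    Measure.measure_prod_null (e.symm.measurable hSm)]
  filter_upwards [hfib] with x hx
  have hmem : ∀ y : Fin b → ℝ, e.symm (x, y) ∈ cylO Ω A ↔ e.symm (x, y) ∈ Ω ∧ x ∈ A := by
    intro y
    have h4 := he (e.symm (x, y))
    rw [e.apply_symm_apply] at h4
    have h5 : x = xc (e.symm (x, y)) := congrArg Prod.fst h4
    unfold cylO
    rw [mem_ofPred_eq, ← h5]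
  by_cases hxA : x ∈ A
  · have h1 : volume (Prod.mk x ⁻¹' G') = 0 := hx.resolve_left hxA
    refine measure_mono_null ?_ h1
    intro y hy
    change e.symm (x, y) ∈ Ω \ F
    change e.symm (x, y) ∈ symmDiff F (cylO Ω A) at hy
    rw [mem_symmDiff, hmem] at hy
    rcases hy with ⟨h2, h3⟩ | ⟨h2, h3⟩
    · exact absurd ⟨hFΩ h2, hxA⟩ h3
    · exact ⟨h2.1, h3⟩
  · have h1 : volume (Prod.mk x ⁻¹' F') = 0 := by
      by_contra h2
      exact hxA h2
    refine measure_mono_null ?_ h1
    intro y hy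
    change e.symm (x, y) ∈ F
    change e.symm (x, y) ∈ symmDiff F (cylO Ω A) at hy
    rw [mem_symmDiff, hmem] at hy
    rcases hy with ⟨h2, h3⟩ | ⟨h2, h3⟩
    · exact h2
    · exact absurd h2.2 hxA

end Pool.Agent.TH89.HU
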